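import Pool.Agent.N848.SM.Stm

/-!
# Project SM, part NZ: the labels modulo 9
-/

set_option autoImplicit false

open scoped Classical

namespace Pool.Agent.N713.SM

open Finset
open Pool.Agent.Y692.QS (Ei w nr)
open Pool.Agent.Y715.T.RecG (Pq)
open Pool.Agent.R419.KF (wt el)
open Pool.Agent.N883.FF (nq ClU)
open Pool.Agent.N848.SM (mq Nz S_NZ3)

/-- an element that is `1` modulo three -/
def lf (z : Ei) : Ei := ⟨1 + 3 * z.re, 3 * z.im⟩

theorem lf_eq (z : Ei) : lf z = 1 + 3 * z := by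
  ext
  · simp [lf, QuadraticAlgebra.re_ofNat, QuadraticAlgebra.im_ofNat]
    rfl
  · simp [lf, QuadraticAlgebra.re_ofNat, QuadraticAlgebra.im_ofNat]
    rfl

theorem ex_lf {a : Ei} (h : (3 : Ei) ∣ a - 1) : ∃ z, a = lf z := by
  obtain ⟨z, hz⟩ := h
  exact ⟨z, by rw [lf_eq, ← hz]; ring⟩

theorem nq_lf (z : Ei) : nq (lf z) = 2 * (z.re : ZMod 3) - (z.im : ZMod 3) := by
  have h : nr (lf z) - 1 = 3 * (2 * z.re - z.im + 3 * (z.re ^ 2 - z.re * z.im + z.im ^ 2)) := by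
    unfold nr lf
    ring
  unfold nq
  rw [h, Int.mul_ediv_cancel_left _ (by norm_num)]
  push_cast
  have h3 : (3 : ZMod 3) = 0 := by decide
  rw [h3]
  ring

theorem mq_lf (z : Ei) : mq (lf z) = (z.im : ZMod 3) := by
  unfold mq lf
  rw [Int.mul_ediv_cancel_left _ (by norm_num)]

theorem lf_mul (y z : Ei) : lf y * lf z = lf (y + z + 3 * (y * z)) := by
  rw [lf_eq, lf_eq, lf_eq]
  ring

theorem re3 (z : Ei) : (3 * z).re = 3 * z.re := by
  simp [QuadraticAlgebra.re_ofNat, QuadraticAlgebra.im_ofNat]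

theorem im3 (z : Ei) : (3 * z).im = 3 * z.im := by
  simp [QuadraticAlgebra.re_ofNat, QuadraticAlgebra.im_ofNat]

theorem mq_mul {a b : Ei} (ha : (3 : Ei) ∣ a - 1) (hb : (3 : Ei) ∣ b - 1) :
    mq (a * b) = mq a + mq b := by
  obtain ⟨y, rfl⟩ := ex_lf ha
  obtain ⟨z, rfl⟩ := ex_lf hb
  rw [lf_mul, mq_lf, mq_lf, mq_lf, QuadraticAlgebra.im_add, QuadraticAlgebra.im_add, im3]
  push_cast
  have h3 : (3 : ZMod 3) = 0 := by decide
  rw [h3]
  ring

theorem nq_mul' {a b : Ei} (ha : (3 : Ei) ∣ a - 1) (hb : (3 : Ei) ∣ b - 1) :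
    nq (a * b) = nq a + nq b := by
  obtain ⟨y, rfl⟩ := ex_lf ha
  obtain ⟨z, rfl⟩ := ex_lf hb
  rw [lf_mul, nq_lf, nq_lf, nq_lf, QuadraticAlgebra.im_add, QuadraticAlgebra.im_add, im3,
    QuadraticAlgebra.re_add, QuadraticAlgebra.re_add, re3]
  push_cast
  have h3 : (3 : ZMod 3) = 0 := by decide
  rw [h3]
  ring

theorem dvd3_iff (z : Ei) : (3 : Ei) ∣ z ↔ (3 : ℤ) ∣ z.re ∧ (3 : ℤ) ∣ z.im := by
  constructor
  · rintro ⟨c, rfl⟩
    exact ⟨⟨c.re, re3 c⟩, ⟨c.im, im3 c⟩⟩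
  · rintro ⟨⟨x, hx⟩, ⟨y, hy⟩⟩
    refine ⟨⟨x, y⟩, ?_⟩
    ext
    · rw [re3, hx]
    · rw [im3, hy]

theorem nine_iff (z : Ei) : (9 : Ei) ∣ lf z - 1 ↔ (3 : Ei) ∣ z := by
  have h1 : lf z - 1 = 3 * z := by rw [lf_eq]; ring
  rw [h1]
  have h9 : (9 : Ei) = 3 * 3 := by norm_num
  constructor
  · rintro ⟨c, hc⟩
    refine ⟨c, ?_⟩
    have h2 : ((3 * z : Ei)) = 3 * (3 * c) := by rw [hc, h9]; ring
    ext
    · have := congrArg QuadraticAlgebra.re h2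
      rw [re3, re3] at this
      omega
    · have := congrArg QuadraticAlgebra.im h2
      rw [im3, im3] at this
      omega
  · rintro ⟨c, rfl⟩
    exact ⟨c, by rw [h9]; ring⟩

theorem lab_iff {a : Ei} (ha : (3 : Ei) ∣ a - 1) : (nq a = 0 ∧ mq a = 0) ↔ (9 : Ei) ∣ a - 1 := by
  obtain ⟨z, rfl⟩ := ex_lf ha
  have h1 : ∀ x : ℤ, (3 : ℤ) ∣ x ↔ (x : ZMod 3) = 0 := fun x =>
    (ZMod.intCast_zmod_eq_zero_iff_dvd x 3).symm
  rw [nine_iff, dvd3_iff, nq_lf, mq_lf, h1, h1]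
  generalize (z.re : ZMod 3) = x
  generalize (z.im : ZMod 3) = y
  revert x y
  decide

theorem prm_prod {S : Finset Ei} (hS : ∀ q ∈ S, (3 : Ei) ∣ q - 1) :
    (3 : Ei) ∣ (∏ π ∈ S, π) - 1 := by
  induction S using Finset.induction_on with
  | empty => rw [prod_empty, sub_self]; exact dvd_zero _
  | insert a s ha ih =>
    rw [prod_insert ha]
    have h1 := hS a (mem_insert_self a s)
    have h2 := ih fun q hq => hS q (mem_insert_of_mem hq)
    have h3 : a * ∏ π ∈ s, π - 1 = a * (∏ π ∈ s, π - 1) + (a - 1) := by ring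
    rw [h3]
    exact dvd_add (h2.mul_left a) h1

theorem lab_prod (f : Ei → ZMod 3) (hf : ∀ a b : Ei, (3 : Ei) ∣ a - 1 → (3 : Ei) ∣ b - 1 →
    f (a * b) = f a + f b) (h1 : f 1 = 0) {S : Finset Ei} (hS : ∀ q ∈ S, (3 : Ei) ∣ q - 1) :
    f (∏ π ∈ S, π) = ∑ π ∈ S, f π := by
  induction S using Finset.induction_on with
  | empty => rw [prod_empty, sum_empty, h1]
  | insert a s ha ih =>
    rw [prod_insert ha, sum_insert ha, hf _ _ (hS a (mem_insert_self a s))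
      (prm_prod fun q hq => hS q (mem_insert_of_mem hq)),
      ih fun q hq => hS q (mem_insert_of_mem hq)]

theorem lab_el (f : Ei → ZMod 3) (hf : ∀ a b : Ei, (3 : Ei) ∣ a - 1 → (3 : Ei) ∣ b - 1 →
    f (a * b) = f a + f b) (h1 : f 1 = 0) {M S : Finset Ei} (hS : ∀ q ∈ S, (3 : Ei) ∣ q - 1)
    (hM : M ⊆ S) : f (el M S) = ∑ π ∈ S, wt M π * f π := by
  unfold el
  rw [hf _ _ (prm_prod hS) (prm_prod fun q hq => hS q (hM hq)), lab_prod f hf h1 hS,
    lab_prod f hf h1 fun q hq => hS q (hM hq)]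
  have h2 : ∑ π ∈ M, f π = ∑ π ∈ S, if π ∈ M then f π else 0 := by
    rw [← sum_filter]
    refine sum_congr ?_ fun _ _ => rfl
    ext q
    rw [mem_filter]
    exact ⟨fun h => ⟨hM h, h⟩, fun h => h.2⟩
  rw [h2, ← sum_add_distrib]
  refine sum_congr rfl fun q _ => ?_
  unfold wt
  by_cases h : q ∈ M
  · rw [if_pos h, if_pos h]
    ring
  · rw [if_neg h, if_neg h]
    ring

theorem nq_one : nq 1 = 0 := by
  have : (nr 1 - 1) / 3 = 0 := by decide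
  unfold nq
  rw [this, Int.cast_zero]

theorem mq_one : mq 1 = 0 := by
  have : (1 : Ei).im / 3 = 0 := by decide
  unfold mq
  rw [this, Int.cast_zero]

/-- SM/NZ -/
theorem t_NZ3 : Pool.Agent.N848.SM.S_NZ3 := by
  refine ⟨fun M S hMS => ?_, fun a b ha hb => ⟨mq_mul ha hb, lab_iff ha⟩⟩
  obtain ⟨hS, hM⟩ := hMS
  have hS3 : ∀ q ∈ S, (3 : Ei) ∣ q - 1 := fun q hq => (hS q hq).three
  have h1 : nq (el M S) = ∑ π ∈ S, wt M π * nq π :=
    lab_el nq (fun a b => nq_mul') nq_one hS3 hM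
  have h2 : mq (el M S) = ∑ π ∈ S, wt M π * mq π :=
    lab_el mq (fun a b => mq_mul) mq_one hS3 hM
  have h3 : (3 : Ei) ∣ el M S - 1 := by
    unfold el
    have h4 := prm_prod hS3
    have h5 := prm_prod fun q hq => hS3 q (hM hq)
    have h6 : (∏ π ∈ S, π) * ∏ π ∈ M, π - 1 =
        (∏ π ∈ S, π) * (∏ π ∈ M, π - 1) + (∏ π ∈ S, π - 1) := by ring
    rw [h6]
    exact dvd_add (h5.mul_left _) h4
  rw [← lab_iff h3, h1, h2]
  unfold Nz
  constructor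
  · rintro (h | h | h) ⟨h7, h8⟩
    · exact h rfl
    · exact h h7
    · exact h h8
  · intro h
    by_cases h7 : ∑ π ∈ S, wt M π * nq π = 0
    · exact Or.inr (Or.inr fun h8 => h ⟨h7, h8⟩)
    · exact Or.inr (Or.inl h7)

end Pool.Agent.N713.SM
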